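import Pool.Agent.N343.AM.Stm

open Finset
open Pool.Agent.N343.AM

namespace Pool.Agent.N215.AM.CHN

theorem hl_self (v : Wd) (n : ℕ) : hl v v n = 0 := by
  simp [hl]

theorem hl_tri (u v w : Wd) (n : ℕ) : hl u w n ≤ hl u v n + hl v w n := by
  unfold hl
  refine le_trans (Finset.card_le_card ?_) (Finset.card_union_le _ _)
  intro i hi
  simp only [Finset.mem_filter, Finset.mem_union] at hi ⊢
  by_cases h : u[i]? = v[i]?
  · right
    refine ⟨hi.1, ?_⟩
    intro h2
    exact hi.2 (h.trans h2)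
  · left
    exact ⟨hi.1, h⟩

theorem DD_pos (P : Wd) (m : ℕ) : 0 < DD P m := by
  unfold DD
  have : 0 < 2 * (m ^ 2 + m + 1) := by positivity
  omega

theorem main (hL : S_CLM) : S_CHN := by
  intro W P m hS k l hkl
  have key : ∀ v ∈ Fac (W k), ∃ v' ∈ Fac (W l), v'.length = v.length ∧
      ∀ n ≤ v.length, (hl v v' n : ℝ) ≤ n * (1 / 2 ^ k - 1 / 2 ^ l) := by
    induction l, hkl using Nat.le_induction with
    | base =>
      intro v hv
      refine ⟨v, hv, rfl, ?_⟩
      intro n _
      rw [hl_self]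
      simp
    | succ l hkl ih =>
      intro v hv
      obtain ⟨v', hv', hlen', h'⟩ := ih v hv
      have hg := hS.gr l
      have hD := DD_pos (P l) (m l)
      have h16 : 16 * DD (P l) (m l) ≤ m (l + 1) := by
        refine le_trans ?_ hg
        apply Nat.mul_le_mul_right
        calc 16 = 2 ^ 4 := by norm_num
          _ ≤ 2 ^ (l + 4) := Nat.pow_le_pow_right (by norm_num) (by omega)
      obtain ⟨v'', hv'', hlen'', h''⟩ := hL (W l) (m l) (P l) (m (l + 1)) (hS.lv l) (hS.ps l)
        h16 v' hv'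
      refine ⟨v'', ?_, by omega, ?_⟩
      · rw [hS.nx l]
        exact hv''
      intro n hn
      have h1 := h' n hn
      have h2 := h'' n (by omega)
      have h3 : 2 ^ (l + 1) * hl v' v'' n ≤ n := by
        have h4 : (8 * DD (P l) (m l)) * (2 ^ (l + 1) * hl v' v'' n)
            ≤ (8 * DD (P l) (m l)) * n := by
          calc (8 * DD (P l) (m l)) * (2 ^ (l + 1) * hl v' v'' n)
              = (2 ^ (l + 4) * DD (P l) (m l)) * hl v' v'' n := by ring
            _ ≤ m (l + 1) * hl v' v'' n := Nat.mul_le_mul_right _ hg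
            _ ≤ 8 * DD (P l) (m l) * n := h2
        exact Nat.le_of_mul_le_mul_left h4 (by omega)
      have h5 : ((2 : ℝ) ^ (l + 1)) * (hl v' v'' n : ℝ) ≤ n := by exact_mod_cast h3
      have h6 : (hl v' v'' n : ℝ) ≤ n * (1 / 2 ^ (l + 1)) := by
        rw [mul_one_div, le_div_iff₀ (by positivity)]
        linarith
      have h7 : (hl v v'' n : ℝ) ≤ hl v v' n + hl v' v'' n := by
        exact_mod_cast hl_tri v v' v'' n
      have h8 : (n : ℝ) * (1 / 2 ^ k - 1 / 2 ^ l) + n * (1 / 2 ^ (l + 1))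
          = n * (1 / 2 ^ k - 1 / 2 ^ (l + 1)) := by
        rw [pow_succ]
        field_simp
        ring
      linarith
  intro v hv
  obtain ⟨v', hv', hlen, h⟩ := key v hv
  refine ⟨v', hv', hlen, ?_⟩
  intro n hn
  have h1 := h n hn
  have h2 : (hl v v' n : ℝ) ≤ n * (1 / 2 ^ k) := by
    refine le_trans h1 ?_
    apply mul_le_mul_of_nonneg_left _ (Nat.cast_nonneg n)
    have : (0 : ℝ) < 1 / 2 ^ l := by positivity
    linarith
  rw [mul_one_div, le_div_iff₀ (by positivity)] at h2
  have h3 : ((2 : ℝ) ^ k) * (hl v v' n : ℝ) ≤ n := by linarith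
  exact_mod_cast h3

end Pool.Agent.N215.AM.CHN
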